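import Pool.Agent.W2helper44.CP.Stm

/-!
# Project CP: distant points
-/

set_option autoImplicit false

open Set Filter Topology MeasureTheory
open scoped ContDiff

noncomputable section

namespace Pool.Agent.W2helper44.CP

namespace H37

variable {ι : Type} [Fintype ι] {K : Eu ι → ℝ}

lemma far_kint (hK : Ker K) : Integrable K := by
  refine hK.smooth.continuous.integrable_of_hasCompactSupport
    (HasCompactSupport.of_support_subset_isCompact (isCompact_closedBall (0 : Eu ι) 1) ?_)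
  intro v hv
  rw [mem_closedBall_zero_iff]
  by_contra h
  exact hv (hK.supp v (not_le.1 h).le)

lemma far_int (hK : Ker K) {g : Eu ι → Eu ι} (hg : Continuous g) :
    Integrable fun v => K v • g v := by
  have h1 : Continuous fun v => K v • g v := hK.smooth.continuous.smul hg
  refine h1.integrable_of_hasCompactSupport
    (HasCompactSupport.of_support_subset_isCompact (isCompact_closedBall (0 : Eu ι) 1) ?_)
  intro v hv
  rw [mem_closedBall_zero_iff]
  by_contra h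
  apply hv
  change K v • g v = 0
  rw [hK.supp v (not_le.1 h).le, zero_smul]

/-- the mean of `g` with respect to the kernel is close to `a` -/
lemma far_mean (hK : Ker K) {g : Eu ι → Eu ι} (hg : Continuous g) {a : Eu ι} {B : ℝ}
    (h : ∀ v, ‖v‖ ≤ 1 → ‖g v - a‖ ≤ B) : ‖(∫ v, K v • g v) - a‖ ≤ B := by
  have h1 : ∫ v, K v • (g v - a) = (∫ v, K v • g v) - a := by
    have h2 : ∫ v, K v • (g v - a) = (∫ v, K v • g v) - ∫ v, K v • a := by
      rw [← integral_sub (far_int hK hg) ((far_kint hK).smul_const a)]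
      refine integral_congr_ae (Eventually.of_forall fun v => ?_)
      exact smul_sub (K v) (g v) a
    rw [h2, integral_smul_const, hK.int, one_smul]
  have h3 : ‖∫ v, K v • (g v - a)‖ ≤ ∫ v, K v * B := by
    refine norm_integral_le_of_norm_le ((far_kint hK).mul_const B)
      (Eventually.of_forall fun v => ?_)
    rw [norm_smul, Real.norm_of_nonneg (hK.nonneg v)]
    by_cases hv : ‖v‖ ≤ 1
    · exact mul_le_mul_of_nonneg_left (h v hv) (hK.nonneg v)
    · rw [hK.supp v (not_le.1 hv).le]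
      simp
  rw [integral_mul_const, hK.int, one_mul, h1] at h3
  exact h3

/-- the displacement of a point under the mollification -/
lemma far_psi {M : Set (Eu ι)} {ρ : Eu ι → Eu ι} (hR : Retr M ρ) (hK : Ker K) {η L : ℝ}
    (hη : 0 < η) (hL : 1 ≤ L) (h1 : ∀ x ∈ M, ∀ y, ‖y - x‖ ≤ η → ρ y ∈ M)
    (h2 : ∀ x ∈ M, ∀ y z, ‖y - x‖ ≤ η → ‖z - x‖ ≤ η → ‖ρ y - ρ z‖ ≤ L * ‖y - z‖)
    {F : Eu ι → Eu ι} (hF : ContDiff ℝ ∞ F) (hm : MapsTo F M M)
    (hc : ∀ x ∈ M, ‖F x - x‖ ≤ η / (L + 2)) {r : ℝ} (hr : 0 < r) (hr1 : r ≤ η / (L + 2))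
    {y : Eu ι} (hy : y ∈ M) {B : ℝ} (hB : ∀ q ∈ M, ‖q - y‖ ≤ L * r → ‖F q - F y‖ ≤ B) :
    ‖psi ρ K F r y - F y‖ ≤ L * B := by
  have hL2 : 0 < L + 2 := by linarith
  have hrη : r ≤ η := hr1.trans (div_le_self hη.le (by linarith))
  have hq : ∀ v : Eu ι, ‖v‖ ≤ 1 → ρ (y + r • v) ∈ M ∧ ‖ρ (y + r • v) - y‖ ≤ L * r := by
    intro v hv
    have h3 : ‖y + r • v - y‖ ≤ r := by
      rw [add_sub_cancel_left, norm_smul, Real.norm_of_nonneg hr.le]
      nlinarith [norm_nonneg v]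
    refine ⟨h1 y hy _ (h3.trans hrη), ?_⟩
    have h4 := h2 y hy (y + r • v) y (h3.trans hrη) (by simpa using hη.le)
    rw [hR.id y hy] at h4
    exact h4.trans (mul_le_mul_of_nonneg_left h3 (by linarith))
  have hcont : Continuous fun v : Eu ι => F (ρ (y + r • v)) := by
    have h3 : Continuous fun v : Eu ι => y + r • v := by fun_prop
    exact hF.continuous.comp (hR.smooth.continuous.comp h3)
  have h5 : ‖mol K (fun y => F (ρ y)) (r, y) - F y‖ ≤ B :=
    far_mean hK hcont fun v hv => hB _ (hq v hv).1 (hq v hv).2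
  have h6 : ‖mol K (fun y => F (ρ y)) (r, y) - F y‖ ≤ η := by
    refine far_mean hK hcont fun v hv => ?_
    have h7 := hc _ (hq v hv).1
    have h8 := hc _ hy
    have h9 : F (ρ (y + r • v)) - F y = (F (ρ (y + r • v)) - ρ (y + r • v)) +
        ((ρ (y + r • v) - y) - (F y - y)) := by abel
    rw [h9]
    have h10 : (L + 2) * (η / (L + 2)) = η := mul_div_cancel₀ _ hL2.ne'
    have h11 : L * r ≤ L * (η / (L + 2)) := mul_le_mul_of_nonneg_left hr1 (by linarith)
    calc ‖(F (ρ (y + r • v)) - ρ (y + r • v)) + ((ρ (y + r • v) - y) - (F y - y))‖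
        ≤ ‖F (ρ (y + r • v)) - ρ (y + r • v)‖ + ‖(ρ (y + r • v) - y) - (F y - y)‖ :=
          norm_add_le _ _
      _ ≤ ‖F (ρ (y + r • v)) - ρ (y + r • v)‖ + (‖ρ (y + r • v) - y‖ + ‖F y - y‖) := by
          gcongr
          exact norm_sub_le _ _
      _ ≤ η / (L + 2) + (L * r + η / (L + 2)) := by
          gcongr
          exact (hq v hv).2
      _ ≤ η := by linarith
  have h7 := h2 (F y) (hm hy) _ (F y) h6 (by simpa using hη.le)
  rw [hR.id _ (hm hy)] at h7
  exact h7.trans (mul_le_mul_of_nonneg_left h5 (by linarith))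

end H37

theorem p_FAR : P_FAR := by
  intro hG _ ι _ M ρ K hR hK
  obtain ⟨η, L, hη, hL, h1, h2, -⟩ := hG ι M ρ hR
  have hL0 : 0 < L := by linarith
  refine ⟨8 * L ^ 2, η / (L + 2), 1 / (256 * L ^ 2), by nlinarith, by positivity, by positivity,
    ?_⟩
  intro F hF hm hflat hc c hc0 hlow r hr hr1 x hx y hy hxy
  set R := ‖x - y‖ with hRdef
  have hRpos : 0 < R := lt_of_lt_of_le (by positivity) hxy
  obtain ⟨l, hl, hfl⟩ := hflat x hx (2 * R) (by positivity)
  set D := ‖F x - F y‖ with hD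
  have hD0 : 0 ≤ D := norm_nonneg _
  have hLr : L * r ≤ R / (8 * L) := by
    rw [le_div_iff₀ (by positivity)]
    nlinarith
  have hLr2 : L * r ≤ R := hLr.trans (div_le_self hRpos.le (by linarith))
  have hLr3 : (L * r) ^ 2 ≤ R ^ 2 / (64 * L ^ 2) := by
    calc (L * r) ^ 2 ≤ (R / (8 * L)) ^ 2 := by gcongr
      _ = R ^ 2 / (64 * L ^ 2) := by rw [div_pow]; ring_nf
  have hxy' : ‖y - x‖ = R := by rw [norm_sub_rev]
  -- the error term
  have herr : 1 / (256 * L ^ 2) * l * (2 * R) ^ 2 = l * (R ^ 2 / (64 * L ^ 2)) := by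
    field_simp
    norm_num
  have hsm : l * (R ^ 2 / (64 * L ^ 2)) ≤ l * R ^ 2 / 64 := by
    rw [mul_div_assoc]
    refine mul_le_mul_of_nonneg_left ?_ hl.le
    refine div_le_div_of_nonneg_left (by positivity) (by norm_num) ?_
    nlinarith
  have hlR : l * R ^ 2 ≤ 2 * D ^ 2 := by
    have h3 := hfl x hx y hy (by simpa using hRpos.le) (by rw [hxy']; linarith)
    rw [herr, abs_le] at h3
    nlinarith [h3.1, mul_pos hl (pow_pos hRpos 2)]
  have key : ∀ q ∈ M, ∀ a ∈ M, ‖a - x‖ ≤ R → ‖q - a‖ ≤ L * r → ‖F q - F a‖ ≤ D / (4 * L) := by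
    intro q hq a ha hax hqa
    have h3 : ‖q - x‖ ≤ 2 * R := by
      calc ‖q - x‖ = ‖(q - a) + (a - x)‖ := by congr 1; abel
        _ ≤ ‖q - a‖ + ‖a - x‖ := norm_add_le _ _
        _ ≤ 2 * R := by linarith
    have h4 := hfl q hq a ha h3 (by linarith)
    rw [herr, abs_le] at h4
    have h5 : ‖q - a‖ ^ 2 ≤ R ^ 2 / (64 * L ^ 2) :=
      (pow_le_pow_left₀ (norm_nonneg _) hqa 2).trans hLr3
    have h6 : ‖F q - F a‖ ^ 2 ≤ (D / (4 * L)) ^ 2 := by
      have h7 : l * ‖q - a‖ ^ 2 ≤ l * (R ^ 2 / (64 * L ^ 2)) := mul_le_mul_of_nonneg_left h5 hl.le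
      have h8 : ‖F q - F a‖ ^ 2 ≤ (l * R ^ 2) / (32 * L ^ 2) := by
        have h9 : (l * R ^ 2) / (32 * L ^ 2) =
            l * (R ^ 2 / (64 * L ^ 2)) + l * (R ^ 2 / (64 * L ^ 2)) := by
          field_simp
          norm_num
        rw [h9]
        linarith [h4.2]
      have h10 : (l * R ^ 2) / (32 * L ^ 2) ≤ (2 * D ^ 2) / (32 * L ^ 2) := by gcongr
      have h11 : (2 * D ^ 2) / (32 * L ^ 2) = (D / (4 * L)) ^ 2 := by
        field_simp
        ring
      linarith
    exact (pow_le_pow_iff_left₀ (norm_nonneg _) (by positivity) two_ne_zero).1 h6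
  have h2' : ∀ x ∈ M, ∀ y z, ‖y - x‖ ≤ η → ‖z - x‖ ≤ η → ‖ρ y - ρ z‖ ≤ L * ‖y - z‖ :=
    fun x hx y z hy hz => (h2 x hx y z hy hz).1
  have hpx : ‖psi ρ K F r x - F x‖ ≤ L * (D / (4 * L)) :=
    H37.far_psi hR hK hη hL h1 h2' hF hm hc hr hr1 hx
      fun q hq hqx => key q hq x hx (by simpa using hRpos.le) hqx
  have hpy : ‖psi ρ K F r y - F y‖ ≤ L * (D / (4 * L)) :=
    H37.far_psi hR hK hη hL h1 h2' hF hm hc hr hr1 hy
      fun q hq hqx => key q hq y hy hxy'.le hqx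
  have hLD : L * (D / (4 * L)) = D / 4 := by
    field_simp
  rw [hLD] at hpx hpy
  have h3 : D ≤ ‖psi ρ K F r x - F x‖ + ‖psi ρ K F r x - psi ρ K F r y‖ +
      ‖psi ρ K F r y - F y‖ := by
    have h4 : F x - F y = -(psi ρ K F r x - F x) + (psi ρ K F r x - psi ρ K F r y) +
        (psi ρ K F r y - F y) := by abel
    rw [hD, h4]
    refine (norm_add_le _ _).trans ?_
    gcongr
    refine (norm_add_le _ _).trans ?_
    rw [norm_neg]
  have h5 : c * R ≤ D := hlow x hx y hy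
  have h6 : 0 ≤ c * R := by positivity
  linarith

end Pool.Agent.W2helper44.CP
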