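import Pool.Agent.W2helper44.CP.Stm

/-!
# Project CP: the mollification and its derivative
-/

set_option autoImplicit false

open Set Filter Topology MeasureTheory
open scoped ContDiff Convolution

noncomputable section

namespace Pool.Agent.W2helper44.CP

namespace H37

variable {ι : Type} [Fintype ι] {K : Eu ι → ℝ}

lemma ker_cpt (hK : Ker K) : HasCompactSupport K := by
  refine HasCompactSupport.of_support_subset_isCompact (isCompact_closedBall (0 : Eu ι) 1) ?_
  intro v hv
  rw [mem_closedBall_zero_iff]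
  by_contra h
  exact hv (hK.supp v (not_le.1 h).le)

lemma ker_dcpt (hK : Ker K) (w : Eu ι) : HasCompactSupport fun v => fderiv ℝ K v w := by
  refine HasCompactSupport.of_support_subset_isCompact ((ker_cpt hK).fderiv (𝕜 := ℝ)).isCompact ?_
  intro v hv
  apply subset_tsupport
  intro h
  apply hv
  change fderiv ℝ K v w = 0
  rw [h]
  rfl

lemma ker_dcont (hK : Ker K) (w : Eu ι) : Continuous fun v => fderiv ℝ K v w :=
  (hK.smooth.continuous_fderiv (by simp)).clm_apply continuous_const

theorem mol_smooth (hK : Ker K) {h : Eu ι → Eu ι} (hh : ContDiff ℝ ∞ h) :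
    ContDiff ℝ ∞ (mol K h) := by
  let g : (ℝ × Eu ι) → Eu ι → Eu ι := fun p y => K (-y) • h (p.2 - p.1 • y)
  have hg : ContDiff ℝ ∞ (Function.uncurry g) := by
    change ContDiff ℝ ∞ fun q : (ℝ × Eu ι) × Eu ι => K (-q.2) • h (q.1.2 - q.1.1 • q.2)
    refine (hK.smooth.comp contDiff_snd.neg).smul (hh.comp ?_)
    exact (contDiff_snd.comp contDiff_fst).sub
      ((contDiff_fst.comp contDiff_fst).smul contDiff_snd)
  have h1 := contDiffOn_convolution_right_with_param (n := ⊤) (μ := (volume : Measure (Eu ι)))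
    (ContinuousLinearMap.lsmul ℝ ℝ : ℝ →L[ℝ] Eu ι →L[ℝ] Eu ι) (f := fun _ : Eu ι => (1 : ℝ))
    (g := g) (s := univ) (k := Metric.closedBall 0 1) isOpen_univ (isCompact_closedBall 0 1)
    (by
      intro p x _ hx
      have h2 : 1 ≤ ‖-x‖ := by
        rw [norm_neg]
        rw [mem_closedBall_zero_iff, not_le] at hx
        exact hx.le
      change K (-x) • h (p.2 - p.1 • x) = 0
      rw [hK.supp _ h2, zero_smul])
    continuous_const.locallyIntegrable hg.contDiffOn
  rw [univ_prod_univ, contDiffOn_univ] at h1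
  have h2 : ContDiff ℝ ∞ fun p : ℝ × Eu ι => (p, (0 : Eu ι)) := contDiff_id.prodMk contDiff_const
  have h3 := h1.comp h2
  convert h3 using 1
  funext p
  simp only [Function.comp_apply, convolution_def, ContinuousLinearMap.lsmul_apply, one_smul, g,
    zero_sub, neg_neg, mol, smul_neg, sub_neg_eq_add]

lemma mol_bound {h : Eu ι → Eu ι} (hh : ContDiff ℝ ∞ h) {r : ℝ} (hr : 0 < r) (z : Eu ι) :
    ∃ C : ℝ, ∀ x ∈ Metric.ball z 1, ∀ v : Eu ι, ‖v‖ ≤ 1 → ‖fderiv ℝ h (x + r • v)‖ ≤ C := by
  have hdh : Continuous (fderiv ℝ h) := hh.continuous_fderiv (by simp)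
  obtain ⟨C, hC⟩ := (isCompact_closedBall z (1 + r)).exists_bound_of_continuousOn
    hdh.continuousOn
  refine ⟨C, fun x hx v hv => hC _ ?_⟩
  rw [Metric.mem_closedBall, dist_eq_norm]
  have h1 : ‖x - z‖ < 1 := by rwa [Metric.mem_ball, dist_eq_norm] at hx
  have h2 : ‖r • v‖ ≤ r := by
    rw [norm_smul, Real.norm_of_nonneg hr.le]
    nlinarith
  calc ‖x + r • v - z‖ = ‖(x - z) + r • v‖ := by congr 1; abel
    _ ≤ ‖x - z‖ + ‖r • v‖ := norm_add_le _ _
    _ ≤ 1 + r := by linarith

lemma mol_pt {h : Eu ι → Eu ι} (hh : ContDiff ℝ ∞ h) (k : ℝ) (u x : Eu ι) :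
    HasFDerivAt (fun x => k • h (x + u)) (k • fderiv ℝ h (x + u)) x := by
  have h2 : HasFDerivAt h (fderiv ℝ h (x + u)) (x + u) :=
    (hh.differentiable (by simp)).differentiableAt.hasFDerivAt
  have h3 : HasFDerivAt (fun y : Eu ι => y + u) (ContinuousLinearMap.id ℝ (Eu ι)) x :=
    (hasFDerivAt_id x).add_const _
  have h4 : HasFDerivAt (fun y : Eu ι => h (y + u)) (fderiv ℝ h (x + u)) x := by
    have h5 := HasFDerivAt.comp x h2 h3
    rw [ContinuousLinearMap.comp_id] at h5
    exact h5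
  exact h4.const_smul k

lemma int_smul {f : Eu ι → ℝ} (hf : Continuous f) (hc : HasCompactSupport f) {V : Type}
    [NormedAddCommGroup V] [NormedSpace ℝ V] {g : Eu ι → V} (hg : Continuous g) :
    Integrable fun v => f v • g v := by
  have h1 : Continuous fun v => f v • g v := hf.smul hg
  have h2 : HasCompactSupport fun v => f v • g v := by
    refine hc.mono fun v hv => ?_
    intro h3
    apply hv
    change f v • g v = 0
    rw [h3, zero_smul]
  exact h1.integrable_of_hasCompactSupport h2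

lemma mol_int_d (hK : Ker K) {h : Eu ι → Eu ι} (hh : ContDiff ℝ ∞ h) (r : ℝ) (x : Eu ι) :
    Integrable fun v => K v • fderiv ℝ h (x + r • v) := by
  have hdh : Continuous (fderiv ℝ h) := hh.continuous_fderiv (by simp)
  have hcont : Continuous fun v : Eu ι => x + r • v := by fun_prop
  exact int_smul hK.smooth.continuous (ker_cpt hK) (hdh.comp hcont)

lemma mol_hasFDeriv (hK : Ker K) {h : Eu ι → Eu ι} (hh : ContDiff ℝ ∞ h) {r : ℝ} (hr : 0 < r)
    (z : Eu ι) : HasFDerivAt (fun x => ∫ v, K v • h (x + r • v))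
      (∫ v, K v • fderiv ℝ h (z + r • v)) z := by
  have hKc := hK.smooth.continuous
  obtain ⟨C, hC⟩ := mol_bound hh hr z
  have hKi : Integrable K := hKc.integrable_of_hasCompactSupport (ker_cpt hK)
  have hcont : ∀ x : Eu ι, Continuous fun v : Eu ι => x + r • v := fun x => by fun_prop
  refine hasFDerivAt_integral_of_dominated_of_fderiv_le (𝕜 := ℝ) (s := Metric.ball z 1)
    (bound := fun v => C * K v) (F' := fun x v => K v • fderiv ℝ h (x + r • v))
    (Metric.ball_mem_nhds z one_pos) (Eventually.of_forall fun x =>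
      (hKc.smul (hh.continuous.comp (hcont x))).aestronglyMeasurable) ?_ ?_ ?_ ?_ ?_
  · exact int_smul hKc (ker_cpt hK) (hh.continuous.comp (hcont z))
  · exact (mol_int_d hK hh r z).aestronglyMeasurable
  · refine Eventually.of_forall fun v x hx => ?_
    rw [norm_smul, Real.norm_of_nonneg (hK.nonneg v)]
    by_cases hv : ‖v‖ ≤ 1
    · nlinarith [hC x hx v hv, hK.nonneg v]
    · rw [hK.supp v (not_le.1 hv).le]
      simp
  · exact hKi.const_mul C
  · exact Eventually.of_forall fun v x _ => mol_pt hh (K v) (r • v) x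

lemma mol_fd1 (hK : Ker K) {h : Eu ι → Eu ι} (hh : ContDiff ℝ ∞ h) {r : ℝ} (hr : 0 < r)
    (z w : Eu ι) : fderiv ℝ (fun x => mol K h (r, x)) z w =
      ∫ v, K v • fderiv ℝ h (z + r • v) w := by
  have h3 : fderiv ℝ (fun x => mol K h (r, x)) z = ∫ v, K v • fderiv ℝ h (z + r • v) :=
    (mol_hasFDeriv hK hh hr z).fderiv
  have h4 := ContinuousLinearMap.integral_apply (mol_int_d hK hh r z) w
  rw [h3]
  exact h4

lemma g_deriv {h : Eu ι → Eu ι} (hh : ContDiff ℝ ∞ h) (r : ℝ) (z w c v : Eu ι) :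
    fderiv ℝ (fun v : Eu ι => h (z + r • v) - c) v w = r • fderiv ℝ h (z + r • v) w := by
  have h3 : HasFDerivAt h (fderiv ℝ h (z + r • v)) (z + r • v) :=
    (hh.differentiable (by simp)).differentiableAt.hasFDerivAt
  have h4 : HasFDerivAt (fun y : Eu ι => z + r • y) (r • ContinuousLinearMap.id ℝ (Eu ι)) v :=
    ((hasFDerivAt_id v).const_smul r).const_add z
  have h5 : HasFDerivAt (fun v : Eu ι => h (z + r • v) - c)
      ((fderiv ℝ h (z + r • v)).comp (r • ContinuousLinearMap.id ℝ (Eu ι))) v :=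
    (HasFDerivAt.comp v h3 h4).sub_const c
  rw [h5.fderiv]
  rw [ContinuousLinearMap.comp_apply, smul_apply,
    ContinuousLinearMap.id_apply, map_smul]

theorem mol_fderiv (hK : Ker K) {h : Eu ι → Eu ι} (hh : ContDiff ℝ ∞ h) {r : ℝ} (hr : 0 < r)
    (z w c : Eu ι) : fderiv ℝ (fun x => mol K h (r, x)) z w =
      -(1 / r) • ∫ v, (fderiv ℝ K v w) • (h (z + r • v) - c) := by
  have hKc := hK.smooth.continuous
  rw [mol_fd1 hK hh hr z w]
  have h01 : ContDiff ℝ ∞ fun v : Eu ι => z + r • v := by fun_prop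
  have h02 : ContDiff ℝ ∞ fun v : Eu ι => h (z + r • v) := hh.comp h01
  have hgs : ContDiff ℝ ∞ fun v : Eu ι => h (z + r • v) - c := h02.sub contDiff_const
  have h3 : ∫ v, K v • fderiv ℝ (fun v : Eu ι => h (z + r • v) - c) v w =
      -∫ v, fderiv ℝ K v w • (h (z + r • v) - c) := by
    refine integral_smul_fderiv_eq_neg_fderiv_smul_of_integrable ?_ ?_ ?_ ?_ ?_
    · exact int_smul (ker_dcont hK w) (ker_dcpt hK w) hgs.continuous
    · exact int_smul hKc (ker_cpt hK)
        ((hgs.continuous_fderiv (by simp)).clm_apply continuous_const)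
    · exact int_smul hKc (ker_cpt hK) hgs.continuous
    · intro v _
      exact (hK.smooth.differentiable (by simp)).differentiableAt
    · intro v _
      exact (hgs.differentiable (by simp)).differentiableAt
  have h4 : ∫ v, K v • fderiv ℝ (fun v : Eu ι => h (z + r • v) - c) v w =
      r • ∫ v, K v • fderiv ℝ h (z + r • v) w := by
    rw [← integral_smul]
    refine integral_congr_ae (Eventually.of_forall fun v => ?_)
    change K v • fderiv ℝ (fun v : Eu ι => h (z + r • v) - c) v w =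
      r • (K v • fderiv ℝ h (z + r • v) w)
    rw [g_deriv hh, smul_comm]
  rw [h4] at h3
  have h5 : ∫ v, K v • fderiv ℝ h (z + r • v) w =
      (1 / r) • (r • ∫ v, K v • fderiv ℝ h (z + r • v) w) := by
    rw [smul_smul, one_div, inv_mul_cancel₀ hr.ne', one_smul]
  rw [h5, h3, smul_neg, neg_smul]

end H37

theorem p_MOL : P_MOL := fun _ _ _ _ hK hh =>
  ⟨H37.mol_smooth hK hh, fun _ hr z w c => H37.mol_fderiv hK hh hr z w c⟩

end Pool.Agent.W2helper44.CP
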